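import Pool.Agent.H240.GU.Def

/-!
# Complete localization on surfaces with a flat cylinder, without symmetry

The proofs of the modules Cyi, Cyf, Cyd, CyfEx, SurfThm with the hypothesis `IsCyl0` instead of
`IsCyl`.
-/

set_option autoImplicit false
set_option linter.unusedSectionVars false

open Set Filter Topology MeasureTheory
open scoped Real ContDiff ComplexConjugate

noncomputable section

namespace Pool.Agent.H94.GU

open Pool.Agent.Y262.QE Pool.Agent.Y264.QR Pool.Agent.H240.SC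
open Pool.Agent.H240.GU (IsCyl0 StSurf)

/-! ### Integration over the cylinder -/

namespace I

open Pool.Agent.Y905.QE (isOpen_rec rec_sub_strip vol_line shift_cover cont_rec image_rec meas_chart)

section

variable {M : Type} [MetricSpace M] [CompactSpace M] [MeasurableSpace M] [BorelSpace M]
  {μ : Measure M} {D : Data M} {L : ℝ} {Φ : ℂ → M}

theorem per_int (hC : IsCyl0 D L Φ) (z : ℂ) (k : ℤ) :
    Φ (z + k * (2 * π * Complex.I)) = Φ z := by
  have h : Function.Periodic Φ (2 * π * Complex.I) := hC.per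
  exact h.int_mul k z

theorem image_strip (hS : D.IsSurf μ) (hC : IsCyl0 D L Φ) {i j : Fin D.N}
    (hT : D.T i = Rec L (-π))
    (h : ∀ z ∈ Rec L (-π), D.ψ i z = Φ z ∧ D.A i z = ContinuousLinearMap.id ℝ ℂ)
    (hT1 : D.T j = Rec L 0)
    (h1 : ∀ z ∈ Rec L 0, D.ψ j z = Φ z ∧ D.A j z = ContinuousLinearMap.id ℝ ℂ) :
    Φ '' Strip L = D.U i ∪ D.U j := by
  apply Subset.antisymm
  · rintro _ ⟨z, hz, rfl⟩
    obtain ⟨k, hk | hk⟩ := shift_cover hz
    · left
      rw [← image_rec hS hT h]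
      exact ⟨_, hk, per_int hC z k⟩
    · right
      rw [← image_rec hS hT1 h1]
      exact ⟨_, hk, per_int hC z k⟩
  · rw [← image_rec hS hT h, ← image_rec hS hT1 h1]
    exact union_subset (image_mono (rec_sub_strip _ _)) (image_mono (rec_sub_strip _ _))

theorem cont_strip (hS : D.IsSurf μ) (hC : IsCyl0 D L Φ) : ContinuousOn Φ (Strip L) := by
  obtain ⟨i, hT, h⟩ := hC.chart (-π) (Or.inl rfl)
  obtain ⟨j, hT1, h1⟩ := hC.chart 0 (Or.inr rfl)
  intro z hz
  apply ContinuousAt.continuousWithinAt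
  obtain ⟨k, hk⟩ := shift_cover hz
  have hc : ContinuousAt Φ (z + k * (2 * π * Complex.I)) := by
    rcases hk with hk | hk
    · exact (cont_rec hS hT h).continuousAt ((isOpen_rec _ _).mem_nhds hk)
    · exact (cont_rec hS hT1 h1).continuousAt ((isOpen_rec _ _).mem_nhds hk)
  have e : Φ = fun z => Φ (z + k * (2 * π * Complex.I)) := by
    funext w
    exact (per_int hC w k).symm
  rw [e]
  exact ContinuousAt.comp' (f := fun w : ℂ => w + k * (2 * π * Complex.I)) hc
    (continuous_id.add continuous_const).continuousAt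

theorem null_rest (hS : D.IsSurf μ) (hC : IsCyl0 D L Φ) {i j : Fin D.N}
    (hT : D.T i = Rec L (-π))
    (h : ∀ z ∈ Rec L (-π), D.ψ i z = Φ z ∧ D.A i z = ContinuousLinearMap.id ℝ ℂ)
    (hT1 : D.T j = Rec L 0)
    (h1 : ∀ z ∈ Rec L 0, D.ψ j z = Φ z ∧ D.A j z = ContinuousLinearMap.id ℝ ℂ) :
    μ (D.U j \ D.U i) = 0 := by
  have hπ := Real.pi_pos
  have hm : MeasurableSet (D.U j \ D.U i) :=
    (hS.openU j).measurableSet.diff (hS.openU i).measurableSet
  rw [hS.area j _ sdiff_subset hm]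
  apply setLIntegral_measure_zero
  refine measure_mono_null ?_ (vol_line π)
  rintro _ ⟨x, ⟨hx, hxi⟩, rfl⟩
  have hz : D.φ j x ∈ Rec L 0 := hT1 ▸ mem_image_of_mem _ hx
  have hxz : Φ (D.φ j x) = x := by rw [← (h1 _ hz).1, hS.left j x hx]
  show (D.φ j x).im = π
  rw [← image_rec hS hT h] at hxi
  rcases lt_trichotomy (D.φ j x).im π with hlt | heq | hgt
  · exact absurd ⟨D.φ j x, ⟨hz.1, by constructor <;> linarith [hz.2.1]⟩, hxz⟩ hxi
  · exact heq
  · refine absurd ⟨D.φ j x + ((-1 : ℤ) : ℂ) * (2 * π * Complex.I), ⟨?_, ?_⟩, ?_⟩ hxi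
    · simpa using hz.1
    · have := hz.2.2
      have e : (D.φ j x + ((-1 : ℤ) : ℂ) * (2 * π * Complex.I)).im = (D.φ j x).im - 2 * π := by
        simp
        ring
      rw [e]
      constructor <;> linarith
    · rw [per_int hC, hxz]

end

theorem cyi0 {M : Type} [MetricSpace M] [CompactSpace M] [MeasurableSpace M] [BorelSpace M]
    {μ : Measure M} {D : Data M} (hS : D.IsSurf μ) {L : ℝ} {Φ : ℂ → M} (hC : IsCyl0 D L Φ) :
    ContinuousOn Φ (Strip L) ∧ IsOpen (Φ '' Strip L) ∧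
      AEMeasurable Φ (volume.restrict (Rec L (-π))) ∧
      Measure.map Φ (volume.restrict (Rec L (-π))) = μ.restrict (Φ '' Strip L) := by
  obtain ⟨i, hT, h⟩ := hC.chart (-π) (Or.inl rfl)
  obtain ⟨j, hT1, h1⟩ := hC.chart 0 (Or.inr rfl)
  have him := image_strip hS hC hT h hT1 h1
  have hae : AEMeasurable Φ (volume.restrict (Rec L (-π))) :=
    (cont_rec hS hT h).aemeasurable (isOpen_rec _ _).measurableSet
  refine ⟨cont_strip hS hC, ?_, hae, ?_⟩
  · rw [him]
    exact (hS.openU i).union (hS.openU j)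
  · ext B hB
    rw [Measure.map_apply_of_aemeasurable hae hB,
      Measure.restrict_apply' (isOpen_rec _ _).measurableSet, Measure.restrict_apply hB, him,
      ← meas_chart hS hT h hB]
    apply le_antisymm
    · exact measure_mono (inter_subset_inter_right _ subset_union_left)
    · have hsub : B ∩ (D.U i ∪ D.U j) ⊆ (B ∩ D.U i) ∪ (D.U j \ D.U i) := by
        rintro x ⟨hxB, hx⟩
        by_cases hxi : x ∈ D.U i
        · exact Or.inl ⟨hxB, hxi⟩
        · exact Or.inr ⟨hx.resolve_left hxi, hxi⟩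
      refine (measure_mono hsub).trans ((measure_union_le _ _).trans ?_)
      rw [null_rest hS hC hT h hT1 h1, add_zero]

end I

/-! ### Functions on the cylinder -/

namespace F

open Pool.Agent.Y480.QE (im_shift re_shift per_int shift_Ico shift_Rec ext_not conj_strip Vf_per
  Vf_conj Vf_C1)

section

variable {M : Type} [TopologicalSpace M] [MeasurableSpace M] {μ : Measure M} {D : Data M} {L : ℝ}
  {Φ : ℂ → M}

/-- a point of the cylinder lies in one of the two charts of the cylinder -/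
lemma cyl_chart (hS : D.IsSurf μ) (hC : IsCyl0 D L Φ) {x : M} (hx : x ∈ Φ '' Strip L) :
    ∃ (i : Fin D.N), x ∈ D.U i ∧ ∀ y ∈ D.U i, D.φ i y ∈ Strip L ∧ Φ (D.φ i y) = y := by
  obtain ⟨z, hz, rfl⟩ := hx
  obtain ⟨k, b, hb, hr⟩ := shift_Rec hz
  obtain ⟨i, hT, hi⟩ := hC.chart b hb
  refine ⟨i, ?_, ?_⟩
  · have h1 : z + k * (2 * π * Complex.I) ∈ D.T i := by rw [hT]; exact hr
    obtain ⟨y, hy, hyz⟩ := h1
    have h2 : D.ψ i (D.φ i y) = y := hS.left i y hy
    rw [hyz, (hi _ hr).1, per_int hC.per] at h2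
    rw [h2]; exact hy
  · intro y hy
    have h1 : D.φ i y ∈ Rec L b := by rw [← hT]; exact ⟨y, hy, rfl⟩
    refine ⟨h1.1, ?_⟩
    rw [← (hi _ h1).1]
    exact hS.left i y hy

lemma ext_mem (hC : IsCyl0 D L Φ) {g : ℂ → ℝ} (hg : ∀ z, g (z + 2 * π * Complex.I) = g z)
    {z : ℂ} (hz : z ∈ Strip L) : Pool.Agent.Y480.QE.ext L Φ g (Φ z) = g z := by
  have h : ∃ w ∈ Strip L, Φ w = Φ z := ⟨z, hz, rfl⟩
  unfold Pool.Agent.Y480.QE.ext
  rw [dif_pos h]
  obtain ⟨k, hk⟩ := hC.inj z hz h.choose h.choose_spec.1 h.choose_spec.2.symm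
  rw [hk, per_int hg]

/-- the support is compact in the cylinder -/
lemma ext_supp [T2Space M] (hC : IsCyl0 D L Φ) (hΦ : ContinuousOn Φ (Strip L))
    {g : ℂ → ℝ} (hg : ∀ z, g (z + 2 * π * Complex.I) = g z) {S : Set ℝ} (hS : IsCompact S)
    (hSL : S ⊆ Ioo 0 L) (hgS : ∀ z : ℂ, z.re ∉ S → g z = 0) {x : M} (hx : x ∉ Φ '' Strip L) :
    ∀ᶠ y in 𝓝 x, Pool.Agent.Y480.QE.ext L Φ g y = 0 := by
  set C : Set ℂ := S ×ℂ Icc (-π) π with hCdef
  have hCc : IsCompact C := hS.reProdIm isCompact_Icc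
  have hCs : C ⊆ Strip L := fun z hz => ⟨(hSL hz.1).1, (hSL hz.1).2⟩
  have hK : IsCompact (Φ '' C) := hCc.image_of_continuousOn (hΦ.mono hCs)
  have hxK : x ∈ (Φ '' C)ᶜ := fun h => hx (image_mono hCs h)
  filter_upwards [hK.isClosed.isOpen_compl.mem_nhds hxK] with y hy
  by_cases hys : y ∈ Φ '' Strip L
  · obtain ⟨z, hz, rfl⟩ := hys
    rw [ext_mem hC hg hz]
    apply hgS
    intro hzS
    obtain ⟨k, h1, h2⟩ := shift_Ico z
    apply hy
    refine ⟨z + k * (2 * π * Complex.I), ⟨?_, ?_⟩, per_int hC.per k z⟩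
    · show (z + k * (2 * π * Complex.I)).re ∈ S
      rw [re_shift]; exact hzS
    · show (z + k * (2 * π * Complex.I)).im ∈ Icc (-π) π
      rw [im_shift]; exact ⟨h1, h2.le⟩
  · exact ext_not hys

lemma ext_cont [T2Space M] (hM : D.IsSurf μ) (hC : IsCyl0 D L Φ)
    (hΦ : ContinuousOn Φ (Strip L))
    {g : ℂ → ℝ} (hg : ∀ z, g (z + 2 * π * Complex.I) = g z) {S : Set ℝ} (hS : IsCompact S)
    (hSL : S ⊆ Ioo 0 L) (hgS : ∀ z : ℂ, z.re ∉ S → g z = 0) (hgc : Continuous g) :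
    Continuous (Pool.Agent.Y480.QE.ext L Φ g) := by
  rw [continuous_iff_continuousAt]
  intro x
  by_cases hx : x ∈ Φ '' Strip L
  · obtain ⟨i, hxi, hi⟩ := cyl_chart hM hC hx
    have h1 : (Pool.Agent.Y480.QE.ext L Φ g) =ᶠ[𝓝 x] fun y => g (D.φ i y) := by
      filter_upwards [(hM.openU i).mem_nhds hxi] with y hy
      have := ext_mem hC hg (hi y hy).1
      rw [(hi y hy).2] at this
      exact this
    refine ContinuousAt.congr ?_ h1.symm
    exact hgc.continuousAt.comp ((hM.contφ i).continuousAt ((hM.openU i).mem_nhds hxi))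
  · have h1 := ext_supp hC hΦ hg hS hSL hgS hx
    exact ContinuousAt.congr continuousAt_const (h1.mono fun y hy => hy.symm)

lemma ext_C1 [T2Space M] (hM : D.IsSurf μ) (hC : IsCyl0 D L Φ)
    (hΦ : ContinuousOn Φ (Strip L))
    {g : ℂ → ℝ} (hg : ∀ z, g (z + 2 * π * Complex.I) = g z) {S : Set ℝ} (hS : IsCompact S)
    (hSL : S ⊆ Ioo 0 L) (hgS : ∀ z : ℂ, z.re ∉ S → g z = 0) (hgc : ContDiff ℝ 1 g) :
    D.C1 (Pool.Agent.Y480.QE.ext L Φ g) := by
  intro j z hz
  apply ContDiffAt.contDiffWithinAt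
  have hzT := hz
  obtain ⟨x, hxj, rfl⟩ := hz
  have hψ : ContinuousAt (D.ψ j) (D.φ j x) := (hM.contψ j).continuousAt ((hM.openT j).mem_nhds hzT)
  have hψx : D.ψ j (D.φ j x) = x := hM.left j x hxj
  have hψt : Tendsto (D.ψ j) (𝓝 (D.φ j x)) (𝓝 x) := by
    have := hψ.tendsto
    rwa [hψx] at this
  by_cases hx : x ∈ Φ '' Strip L
  · obtain ⟨i, hxi, hi⟩ := cyl_chart hM hC hx
    have h1 : ∀ᶠ y in 𝓝 x, Pool.Agent.Y480.QE.ext L Φ g y = g (D.φ i y) := by
      filter_upwards [(hM.openU i).mem_nhds hxi] with y hy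
      have := ext_mem hC hg (hi y hy).1
      rw [(hi y hy).2] at this
      exact this
    have h2 : (fun z => Pool.Agent.Y480.QE.ext L Φ g (D.ψ j z)) =ᶠ[𝓝 (D.φ j x)] fun z => g (D.φ i (D.ψ j z)) :=
      hψt.eventually h1
    refine ContDiffAt.congr_of_eventuallyEq ?_ h2
    exact hgc.contDiffAt.comp (D.φ j x) (hM.tr j i x hxj hxi).1
  · have h1 := hψt.eventually (ext_supp hC hΦ hg hS hSL hgS hx)
    exact ContDiffAt.congr_of_eventuallyEq (contDiffAt_const (c := (0 : ℝ))) h1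

end

theorem cyf0 {M : Type} [MetricSpace M] [CompactSpace M] [MeasurableSpace M] [BorelSpace M]
    {μ : Measure M} {D : Data M} (hM : D.IsSurf μ) {L : ℝ} {Φ : ℂ → M} (hC : IsCyl0 D L Φ)
    {η : ℝ → ℝ} (hη : Tst L η) :
    (∃ f : M → ℝ, Continuous f ∧ (∀ z ∈ Strip L, f (Φ z) = η z.re) ∧
      ∀ x, x ∉ Φ '' Strip L → f x = 0) ∧
    ∀ m : ℕ, ∃ V : M → ℝ, D.C1 V ∧ (∀ z ∈ Strip L, V (Φ z) = Vf η m z) ∧
      (∀ x, x ∉ Φ '' Strip L → V x = 0) := by
  obtain ⟨hΦ, -, -, -⟩ := I.cyi0 hM hC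
  obtain ⟨hη1, hη2, hη3⟩ := hη
  have hS : IsCompact (tsupport η) := hη2
  have hz0 : ∀ x, x ∉ tsupport η → η x = 0 := fun x hx => image_eq_zero_of_notMem_tsupport hx
  refine ⟨⟨Pool.Agent.Y480.QE.ext L Φ fun z => η z.re, ?_, ?_, ?_⟩, fun m => ⟨Pool.Agent.Y480.QE.ext L Φ (Vf η m), ?_, ?_, ?_⟩⟩
  · refine ext_cont hM hC hΦ (fun z => ?_) hS hη3 (fun z hz => hz0 _ hz) ?_
    · simp
    · exact hη1.continuous.comp Complex.continuous_re
  · intro z hz
    exact ext_mem hC (g := fun z => η z.re) (fun z => by simp) hz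
  · intro x hx
    exact ext_not hx
  · refine ext_C1 hM hC hΦ (fun z => ?_) hS hη3 (fun z hz => ?_) ?_
    · exact Vf_per η m z
    · simp [Vf, hz0 _ hz]
    · exact Vf_C1 hη1 m
  · intro z hz
    exact ext_mem hC (g := Vf η m) (Vf_per η m) hz
  · intro x hx
    exact ext_not hx

end F

/-! ### The Dirichlet integral with a function on the cylinder -/

namespace DI

open Pool.Agent.Y252.QE (isOpen_strip isOpen_rec rec_sub inner_eq mem_chart zero_of)

section

variable {M : Type} [MetricSpace M] [CompactSpace M] [MeasurableSpace M] [BorelSpace M]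
  {μ : Measure M} {D : Data M} {L : ℝ} {Φ : ℂ → M}

lemma per_int (hC : IsCyl0 D L Φ) (k : ℤ) (z : ℂ) : Φ (z + k * (2 * π * Complex.I)) = Φ z := by
  have h : Function.Periodic Φ (2 * π * Complex.I) := hC.per
  exact h.int_mul k z

/-- a translate of a point of the strip is in one of the two rectangles -/
lemma exists_rec (hC : IsCyl0 D L Φ) {z : ℂ} (hz : z ∈ Strip L) :
    ∃ (k : ℤ) (i : Fin D.N) (b : ℝ), D.T i = Rec L b ∧
      (∀ w ∈ Rec L b, D.ψ i w = Φ w ∧ D.A i w = ContinuousLinearMap.id ℝ ℂ) ∧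
      z + k * (2 * π * Complex.I) ∈ Rec L b := by
  have hpi : (0 : ℝ) < 2 * π := by positivity
  set k : ℤ := -⌊z.im / (2 * π)⌋ with hk
  have h1 : (z + k * (2 * π * Complex.I)).re = z.re := by simp
  have h2 : (z + k * (2 * π * Complex.I)).im = z.im + k * (2 * π) := by simp
  have h3 : 0 ≤ z.im + k * (2 * π) := by
    have := Int.floor_le (z.im / (2 * π))
    rw [le_div_iff₀ hpi] at this
    rw [hk]
    push_cast
    linarith
  have h4 : z.im + k * (2 * π) < 2 * π := by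
    have := Int.lt_floor_add_one (z.im / (2 * π))
    rw [div_lt_iff₀ hpi] at this
    rw [hk]
    push_cast
    linarith
  rcases h3.eq_or_lt with h5 | h5
  · obtain ⟨i, hi, hi'⟩ := hC.chart (-π) (Or.inl rfl)
    refine ⟨k, i, -π, hi, hi', ⟨?_, ?_⟩⟩
    · rw [h1]
      exact hz
    · rw [h2, ← h5]
      constructor <;> linarith [Real.pi_pos]
  · obtain ⟨i, hi, hi'⟩ := hC.chart 0 (Or.inr rfl)
    refine ⟨k, i, 0, hi, hi', ⟨?_, ?_⟩⟩
    · rw [h1]
      exact hz
    · rw [h2]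
      constructor <;> linarith

lemma contDiffOn_comp (hC : IsCyl0 D L Φ) {G : M → ℝ} (hG : D.C1 G) :
    ContDiffOn ℝ 1 (fun z => G (Φ z)) (Strip L) := by
  intro z hz
  obtain ⟨k, i, b, hT, hi, hk⟩ := exists_rec hC hz
  have h1 : ContDiffAt ℝ 1 (fun w => G (D.ψ i w)) (z + k * (2 * π * Complex.I)) := by
    refine (hG i).contDiffAt ?_
    rw [hT]
    exact (isOpen_rec L b).mem_nhds hk
  have h2 : ContDiffAt ℝ 1 (fun w : ℂ => w + (k : ℂ) * (2 * π * Complex.I)) z :=
    contDiffAt_id.add contDiffAt_const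
  have h3 : ContDiffAt ℝ 1 (fun w => G (D.ψ i (w + k * (2 * π * Complex.I)))) z :=
    ContDiffAt.comp (g := fun w => G (D.ψ i w)) z h1 h2
  refine (h3.congr_of_eventuallyEq ?_).contDiffWithinAt
  have h4 : ∀ᶠ w in 𝓝 z, w + k * (2 * π * Complex.I) ∈ Rec L b := by
    have hc : Continuous fun w : ℂ => w + (k : ℂ) * (2 * π * Complex.I) := by fun_prop
    exact hc.continuousAt.eventually ((isOpen_rec L b).mem_nhds hk)
  filter_upwards [h4] with w hw
  rw [(hi _ hw).1, per_int hC]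

end

theorem cyd0 (hGr : StGr) (hIBP : StIBP) {M : Type} [MetricSpace M] [CompactSpace M]
    [MeasurableSpace M] [BorelSpace M]
    {μ : Measure M} {D : Data M} (hS : D.IsSurf μ) {L : ℝ} {Φ : ℂ → M} (hC : IsCyl0 D L Φ)
    {η : ℝ → ℝ} (hη : Tst L η) (m : ℕ) (V : M → ℝ) (hV : D.C1 V)
    (hVs : ∀ z ∈ Strip L, V (Φ z) = Vf η m z) (hV0 : ∀ x, x ∉ Φ '' Strip L → V x = 0)
    (G : M → ℝ) (hG : D.C1 G) :
    ∫ x, inner ℝ (D.gr V x) (D.gr G x) ∂μ =
      ∫ z in Rec L (-π), (-(iteratedDeriv 2 η z.re) + (m + 1) ^ 2 * η z.re) *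
        Real.sin ((m + 1) * z.im) * G (Φ z) := by
  obtain ⟨i0, hT, hi0⟩ := hC.chart (-π) (Or.inl rfl)
  obtain ⟨hΦc, hSo, hΦm, hmap⟩ := I.cyi0 hS hC
  -- the support
  have hzero : ∀ x, x ∉ Φ '' Strip L → inner ℝ (D.gr V x) (D.gr G x) = 0 := by
    intro x hx
    refine zero_of hGr hS hV hG ?_
    set K0 : Set ℂ := {z | z.re ∈ tsupport η ∧ z.im ∈ Icc (-π) π} with hK0
    have hKc : IsCompact K0 := by
      have h1 : K0 = (tsupport η) ×ℂ (Icc (-π) π) := by
        ext z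
        simp [hK0, Complex.mem_reProdIm]
      rw [h1]
      exact hη.2.1.isCompact.reProdIm isCompact_Icc
    have hKS : K0 ⊆ Strip L := fun z hz => hη.2.2 hz.1
    have hcl : IsClosed (Φ '' K0) := (hKc.image_of_continuousOn (hΦc.mono hKS)).isClosed
    have hx' : x ∉ Φ '' K0 := fun h => hx (image_mono hKS h)
    have h2 : ∀ y, y ∉ Φ '' K0 → V y = 0 := by
      intro y hy
      by_cases hyS : y ∈ Φ '' Strip L
      · obtain ⟨z, hz, rfl⟩ := hyS
        rw [hVs z hz]
        unfold Vf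
        by_contra hne
        apply hy
        have hη0 : η z.re ≠ 0 := fun h => hne (by rw [h, zero_mul])
        -- translate into [-π, π]
        obtain ⟨k, hk1, hk2⟩ : ∃ k : ℤ, -π ≤ z.im + k * (2 * π) ∧ z.im + k * (2 * π) ≤ π := by
          have hpi : (0 : ℝ) < 2 * π := by positivity
          refine ⟨-⌊(z.im + π) / (2 * π)⌋, ?_, ?_⟩
          · have := Int.floor_le ((z.im + π) / (2 * π))
            rw [le_div_iff₀ hpi] at this
            push_cast
            linarith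
          · have := Int.lt_floor_add_one ((z.im + π) / (2 * π))
            rw [div_lt_iff₀ hpi] at this
            push_cast
            linarith
        refine ⟨z + k * (2 * π * Complex.I), ⟨?_, ?_⟩, per_int hC k z⟩
        · have : (z + k * (2 * π * Complex.I)).re = z.re := by simp
          rw [this]
          exact subset_tsupport η hη0
        · have : (z + k * (2 * π * Complex.I)).im = z.im + k * (2 * π) := by simp
          rw [this]
          exact ⟨hk1, hk2⟩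
      · exact hV0 y hyS
    filter_upwards [hcl.isOpen_compl.mem_nhds hx'] with y hy
    exact h2 y hy
  have hmeas : Measurable fun x => (inner ℝ (D.gr V x) (D.gr G x) : ℝ) :=
    (((hGr M μ D hS).1 V hV).2.1).inner (((hGr M μ D hS).1 G hG).2.1)
  rw [← setIntegral_eq_integral_of_forall_compl_eq_zero hzero, ← hmap,
    integral_map hΦm hmeas.aestronglyMeasurable]
  have hper : ∀ z, G (Φ (z + 2 * π * Complex.I)) = G (Φ z) := fun z => by rw [hC.per z]
  have hibp := hIBP L (fun z => G (Φ z)) η m hC.pos (contDiffOn_comp hC hG) hper hη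
  rw [← hibp]
  refine setIntegral_congr_fun (isOpen_rec L (-π)).measurableSet fun z hz => ?_
  have hzT : z ∈ D.T i0 := by rw [hT]; exact hz
  obtain ⟨hU, hφ⟩ := mem_chart hS hzT
  have hψ : D.ψ i0 z = Φ z := (hi0 z hz).1
  rw [hψ] at hU hφ
  have hnh : Rec L (-π) ∈ 𝓝 z := (isOpen_rec L (-π)).mem_nhds hz
  have e1 : (fun w => V (D.ψ i0 w)) =ᶠ[𝓝 z] Vf η m := by
    filter_upwards [hnh] with w hw
    rw [(hi0 w hw).1, hVs w (rec_sub L _ hw)]
  have e2 : (fun w => G (D.ψ i0 w)) =ᶠ[𝓝 z] fun w => G (Φ w) := by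
    filter_upwards [hnh] with w hw
    rw [(hi0 w hw).1]
  show inner ℝ (D.gr V (Φ z)) (D.gr G (Φ z)) = _
  rw [(hGr M μ D hS).2.1 V G hV hG i0 (Φ z) hU, inner_eq]
  unfold Data.gc Data.dc
  rw [hφ, e1.fderiv_eq, e2.fderiv_eq, (hi0 z hz).2]
  simp [grd]

end DI

/-! ### The form domain -/

section

variable {M : Type} [MetricSpace M] [CompactSpace M] [MeasurableSpace M] [BorelSpace M]
  {μ : Measure M} {D : Data M} {L : ℝ} {Φ : ℂ → M}

lemma ex_elF0 (hD : D.IsSurf μ) (hC : IsCyl0 D L Φ)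
    {η : ℝ → ℝ} (hη : Tst L η) (m : ℕ) : ∃ e V, ElF D μ L Φ η m e V := by
  obtain ⟨V, h1, h2, h3⟩ := (F.cyf0 hD hC hη).2 m
  obtain ⟨v, hv, hf, hs⟩ := (tDenF M μ D hD).1 V h1
  refine ⟨(√π)⁻¹ • ⟨v, hv⟩, V, h1, h2, h3, ?_, ?_⟩
  · have e : ((√π)⁻¹ • (⟨v, hv⟩ : HF D μ)).1.fst = (√π)⁻¹ • v.fst := rfl
    rw [e]
    filter_upwards [Lp.coeFn_smul (√π)⁻¹ v.fst, hf] with x hx hx'
    rw [hx, Pi.smul_apply, hx', smul_eq_mul]
  · have e : ((√π)⁻¹ • (⟨v, hv⟩ : HF D μ)).1.snd = (√π)⁻¹ • v.snd := rfl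
    rw [e]
    filter_upwards [Lp.coeFn_smul (√π)⁻¹ v.snd, hs] with x hx hx'
    rw [hx, Pi.smul_apply, hx']

theorem cyF_ex0 (hD : D.IsSurf μ) (hC : IsCyl0 D L Φ) {iF : HF D μ →L[ℝ] Lp ℝ 2 μ}
    {aF : HF D μ →L[ℝ] HF D μ →L[ℝ] ℝ} (hi : ∀ v, iF v = v.1.fst)
    (ha : ∀ u v, aF u v = inner ℝ u.1.snd v.1.snd) :
    CyF μ L Φ iF aF (fun v m => cf (fun z => (iF v) (Φ z)) m) := by
  have hfin : IsFiniteMeasure μ := (tFin M μ D hD).1
  have hyi := I.cyi0 hD hC
  obtain ⟨hG1, hG2, hG3⟩ := tGr M μ D hD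
  have hgr : ∀ F, D.C1 F → Continuous F := fun F hF => (hG1 F hF).1
  have hpi : 0 < √π := Real.sqrt_pos.2 Real.pi_pos
  have hmem : ∀ v : HF D μ, MemLp (fun z => (iF v) (Φ z)) 2
      (volume.restrict (Rec L (-π))) := fun v => Pool.Agent.Y291.QE.u_mem hyi _
  have hP := fun v : HF D μ => par0 (hmem v)
  -- measurable versions of the functions on the cylinder
  have hver : ∀ (f : C(M, ℝ)) (f0 : ℝ → ℝ), (∀ z ∈ Strip L, f (Φ z) = f0 z.re) →
      ∃ f1 : ℝ → ℝ, Measurable f1 ∧ (∃ C, ∀ x, |f1 x| ≤ C) ∧ (∀ x ∈ Ioo 0 L, f1 x = f0 x) ∧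
        ((∀ x, 0 ≤ f x) → ∀ x, 0 ≤ f1 x) ∧ ∀ z ∈ Strip L, f (Φ z) = f1 z.re := by
    classical
    intro f f0 hf0
    have hst : ∀ x : ℝ, x ∈ Ioo 0 L → ((x : ℂ)) ∈ Strip L := fun x hx => hx
    have hc : ContinuousOn f0 (Ioo 0 L) := by
      have h1 : ContinuousOn (fun x : ℝ => f (Φ x)) (Ioo 0 L) :=
        f.continuous.comp_continuousOn (hyi.1.comp Complex.continuous_ofReal.continuousOn hst)
      refine h1.congr fun x hx => ?_
      have h2 := hf0 x (hst x hx)
      rw [Complex.ofReal_re] at h2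
      exact h2.symm
    refine ⟨(Ioo 0 L).piecewise f0 fun _ => 0, hc.measurable_piecewise continuousOn_const
      measurableSet_Ioo, ⟨‖f‖, fun x => ?_⟩, fun x hx => piecewise_eq_of_mem _ _ _ hx,
      fun h0 x => ?_, fun z hz => ?_⟩
    · by_cases hx : x ∈ Ioo 0 L
      · rw [piecewise_eq_of_mem _ _ _ hx]
        have h1 := hf0 x (hst x hx)
        rw [Complex.ofReal_re] at h1
        rw [← h1, ← Real.norm_eq_abs]
        exact f.norm_coe_le_norm _
      · rw [piecewise_eq_of_notMem _ _ _ hx, abs_zero]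
        exact norm_nonneg _
    · by_cases hx : x ∈ Ioo 0 L
      · rw [piecewise_eq_of_mem _ _ _ hx]
        have h1 := hf0 x (hst x hx)
        rw [Complex.ofReal_re] at h1
        rw [← h1]
        exact h0 _
      · rw [piecewise_eq_of_notMem _ _ _ hx]
    · rw [piecewise_eq_of_mem _ _ _ (show z.re ∈ Ioo 0 L from hz)]
      exact hf0 z hz
  refine ⟨hC.pos, fun v m => (hP v).1 m, fun f f0 hf hf0 v m => ?_, fun η hη m => ?_⟩
  · obtain ⟨f1, g1, g2, g3, g4, g5⟩ := hver f f0 hf0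
    have h1 := (hP v).2.2 f1 g1 g2 (g4 hf) m
    have h2 : ∫ x in Ioo 0 L, f0 x * (cf (fun z => (iF v) (Φ z)) m x) ^ 2 =
        ∫ x in Ioo 0 L, f1 x * (cf (fun z => (iF v) (Φ z)) m x) ^ 2 := by
      refine setIntegral_congr_fun measurableSet_Ioo fun x hx => ?_
      beta_reduce
      rw [g3 x hx]
    rw [h2]
    refine h1.trans ?_
    have h3 : ∫ z in Rec L (-π), f1 z.re * ((iF v) (Φ z)) ^ 2 =
        ∫ x in Φ '' Strip L, f x * ((iF v) x * (iF v) x) ∂μ := by
      rw [Pool.Agent.Y291.QE.tr hyi (g := fun x => f x * ((iF v) x * (iF v) x))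
        (f.continuous.aestronglyMeasurable.mul
          ((Lp.aestronglyMeasurable (iF v)).mul (Lp.aestronglyMeasurable (iF v))))]
      refine setIntegral_congr_fun (Pool.Agent.Y291.QE.rec_meas L) fun z hz => ?_
      beta_reduce
      rw [g5 z (Pool.Agent.Y291.QE.rec_sub L hz)]
      ring
    rw [h3]
    refine setIntegral_le_integral ?_ (Eventually.of_forall fun x => ?_)
    · exact int_mul f (iF v) (iF v)
    · exact mul_nonneg (hf x) (mul_self_nonneg _)
  · obtain ⟨e, V, he⟩ := ex_elF0 hD hC hη m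
    obtain ⟨e', V', he'⟩ := ex_elF0 hD hC (Pool.Agent.Y291.QE.tst_op hη m) m
    refine ⟨e, ?_, fun f f0 hf0 v => ?_, fun v => ?_⟩
    · have h1 : (fun z => (iF e) (Φ z)) =ᵐ[volume.restrict (Rec L (-π))]
          fun z => (√π)⁻¹ * Vf η m z := by
        have h2 := Pool.Agent.Y291.QE.tr_ae hyi he.fst
        filter_upwards [h2, ae_restrict_mem (Pool.Agent.Y291.QE.rec_meas L)] with z hz hzR
        rw [hi, hz, he.val z (Pool.Agent.Y291.QE.rec_sub L hzR)]
      refine (cf_congr h1 m).trans (Eventually.of_forall fun x => ?_)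
      exact cf_test η m x
    · obtain ⟨f1, g1, ⟨C1, g2⟩, g3, g4, g5⟩ := hver f f0 hf0
      rw [hi e, elF_int hyi hgr he f.continuous (Lp.aestronglyMeasurable (iF v)) g5]
      obtain ⟨C2, hC2⟩ := Pool.Agent.Y291.QE.tst_bdd hη
      have h1 := (hP v).2.1 (fun x => f1 x * η x) (g1.mul hη.1.continuous.measurable)
        ⟨C1 * C2, fun x => by
          rw [abs_mul]
          exact mul_le_mul (g2 x) (hC2 x) (abs_nonneg _) ((abs_nonneg _).trans (g2 x))⟩ m
      beta_reduce at h1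
      rw [h1, ← mul_assoc, inv_mul_cancel₀ hpi.ne', one_mul]
      refine setIntegral_congr_fun measurableSet_Ioo fun x hx => ?_
      beta_reduce
      rw [g3 x hx]
    · -- the Dirichlet form
      have h1Φ : ∀ z ∈ Strip L, (1 : C(M, ℝ)) (Φ z) = (fun _ => 1 : ℝ → ℝ) z.re := fun z _ => rfl
      have hkey : ∀ v : HF D μ, aa D μ e v = inner ℝ (ii D μ e') (ii D μ v) := by
        refine dens tDenF hD (P := fun v => aa D μ e v = inner ℝ (ii D μ e') (ii D μ v)) ?_ ?_
        · exact isClosed_eq (aa D μ e).continuous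
            (continuous_const.inner (ii D μ).continuous)
        · intro v F hF hf hs
          have h2 : inner ℝ (ii D μ e') (ii D μ v) =
              ∫ x, (1 : M → ℝ) x * ((e'.1.fst : M → ℝ) x * F x) ∂μ := by
            rw [inn]
            refine integral_congr_ae ?_
            filter_upwards [hf] with x hx
            rw [ii_apply, ii_apply, hx, Pi.one_apply, one_mul]
          rw [h2, elF_int hyi hgr he' (f := (1 : M → ℝ)) continuous_one (hgr F hF).aestronglyMeasurable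
            (f1 := fun _ => 1) (fun z _ => rfl), aa_apply, innC]
          have h3 : ∫ x, inner ℝ (e.1.snd x) (v.1.snd x) ∂μ =
              ∫ x, (√π)⁻¹ * inner ℝ (D.gr V x) (D.gr F x) ∂μ := by
            refine integral_congr_ae ?_
            filter_upwards [he.snd, hs] with x hx hx'
            rw [hx, hx', real_inner_smul_left]
          rw [h3, integral_const_mul, DI.cyd0 tGr Pool.Agent.Y365.QE.ibp hD hC hη m V he.c1 he.val he.off F hF]
          congr 1
          refine setIntegral_congr_fun (Pool.Agent.Y291.QE.rec_meas L) fun z hz => ?_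
          ring
      have h4 : aF e v = aa D μ e v := by rw [ha, aa_apply]
      rw [h4, hkey v]
      have h5 : inner ℝ (ii D μ e') (ii D μ v) =
          ∫ x, (1 : M → ℝ) x * ((e'.1.fst : M → ℝ) x * (iF v) x) ∂μ := by
        rw [inn]
        refine integral_congr_ae (Eventually.of_forall fun x => ?_)
        beta_reduce
        rw [ii_apply, ii_apply, Pi.one_apply, one_mul, hi]
      rw [h5, elF_int hyi hgr he' (f := (1 : M → ℝ)) continuous_one
        (Lp.aestronglyMeasurable (iF v)) (f1 := fun _ => 1) (fun z _ => rfl)]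
      have h6 := (hP v).2.1 (fun x => 1 * (-(iteratedDeriv 2 η x) + ((m : ℝ) + 1) ^ 2 * η x)) (by
        have := (Pool.Agent.Y291.QE.tst_op hη m).1.continuous.measurable
        simpa using this) (by
        obtain ⟨C, hC⟩ := Pool.Agent.Y291.QE.tst_bdd (Pool.Agent.Y291.QE.tst_op hη m)
        exact ⟨C, fun x => by simpa using hC x⟩) m
      beta_reduce at h6
      rw [h6, ← mul_assoc, inv_mul_cancel₀ hpi.ne', one_mul]
      refine integral_congr_ae (Eventually.of_forall fun x => ?_)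
      beta_reduce
      rw [one_mul]

end

/-- `GU-1` -/
theorem stSurf : StSurf := by
  intro M _ _ _ _ μ D L Φ hD hC x1 x2 C0 κ h κ0 h0 hG
  obtain ⟨hfin, hpos⟩ := tFin M μ D hD
  have hM : Nonempty M := ⟨Φ 0⟩
  obtain ⟨iF, aF, hSf, hiF, haF⟩ := tPackF M μ D hD hM
  have : CompleteSpace (HF D μ) :=
    (Submodule.isClosed_topologicalClosure _).completeSpace_coe
  obtain ⟨bF, hBF, hFF, -⟩ := tFm M μ (HF D μ) iF aF hSf
  have hCy := cyF_ex0 hD hC hiF haF
  filter_upwards [abs_main hSf hBF hFF hCy hG] with s hs u lam hu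
  obtain ⟨e, heu, hEg⟩ := tBr M μ D hD iF aF bF hSf hiF haF hBF hFF (κ + s • h) u lam hu
  obtain ⟨J, hJ1, hJ2⟩ := hs e lam hEg
  refine ⟨J, hJ1, ?_⟩
  refine hJ2.congr fun j => ?_
  exact kap_eq μ iF h (κ + s • h) (e j) (u j) (heu j)

end Pool.Agent.H94.GU
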